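import Pool.Agent.Helper75.CG.Defs

/-!
# Project CG, CG-A: exact one-step formulas
-/

set_option autoImplicit false

namespace Pool.Agent.Helper75.CG

open scoped Classical
open Finset
open Pool.Agent.Helper65.CliqueGame

section abstract

variable {V : Type} [Fintype V] {ι : Type}

theorem h9_filter_union (S κ : Finset V) :
    (univ.filter (fun A : Finset V => S ⊆ A)).filter (fun A => κ ⊆ A) =
      univ.filter (fun A : Finset V => S ∪ κ ⊆ A) := by
  ext A
  simp only [mem_filter, mem_univ, true_and, union_subset_iff]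

theorem mass_claim1 (μ : ℝ) (κ : Finset V) (φ : Finset V → ℝ) (S : Finset V) :
    mass (claim1 μ κ φ) S = mass φ S + μ * mass φ (S ∪ κ) := by
  unfold mass
  rw [← h9_filter_union S κ, Finset.sum_filter (p := fun A => κ ⊆ A), Finset.mul_sum,
    ← Finset.sum_add_distrib]
  refine Finset.sum_congr rfl fun A _ => ?_
  unfold claim1
  split_ifs <;> ring

theorem mass_kill1 (κ : Finset V) (φ : Finset V → ℝ) (S : Finset V) :
    mass (kill1 κ φ) S = mass φ S - mass φ (S ∪ κ) := by
  unfold mass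
  rw [← h9_filter_union S κ, Finset.sum_filter (p := fun A => κ ⊆ A),
    ← Finset.sum_sub_distrib]
  refine Finset.sum_congr rfl fun A _ => ?_
  unfold kill1
  split_ifs <;> ring

theorem h9_RR (SS : Finset (Finset V)) (φ cap : Finset V → ℝ) (κ : Finset V) :
    RR SS φ cap κ = ∑ S ∈ SS, (if κ ⊆ S then 0 else mass φ (S ∪ κ) ^ 2 / cap S) := by
  unfold RR
  rw [Finset.sum_filter]
  refine Finset.sum_congr rfl fun S _ => ?_
  split_ifs <;> rfl

theorem PP_claim1 {μ : ℝ} (hμ : 0 ≤ μ) (κ : Finset V) (SS : Finset (Finset V))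
    (φ cap : Finset V → ℝ) (hcap : ∀ S, 0 < cap S) :
    PP SS (claim1 μ κ φ) (claim1 μ κ cap) =
      PP SS φ cap + μ * DD SS φ cap κ - μ ^ 2 * RR SS φ cap κ := by
  unfold PP DD
  rw [h9_RR, mass_claim1, empty_union]
  have h : ∀ S ∈ SS, mass (claim1 μ κ φ) S ^ 2 / claim1 μ κ cap S =
      mass φ S ^ 2 / cap S +
      μ * ((if κ ⊆ S then 1 else 2) * rat φ cap S * mass φ (S ∪ κ)) +
      μ ^ 2 * (if κ ⊆ S then 0 else mass φ (S ∪ κ) ^ 2 / cap S) := by
    intro S _
    have hc := (hcap S).ne'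
    rw [mass_claim1]
    unfold claim1 rat
    by_cases hκ : κ ⊆ S
    · rw [if_pos hκ, if_pos hκ, if_pos hκ, union_eq_left.2 hκ]
      have h1 : 1 + μ ≠ 0 := by positivity
      field_simp
      ring
    · rw [if_neg hκ, if_neg hκ, if_neg hκ]
      field_simp
      ring
  rw [Finset.sum_congr rfl h, Finset.sum_add_distrib, Finset.sum_add_distrib, ← Finset.mul_sum,
    ← Finset.mul_sum]
  ring

theorem PP_kill1 (κ : Finset V) (SS : Finset (Finset V))
    (φ cap : Finset V → ℝ) (hcap : ∀ S, 0 < cap S) :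
    PP SS (kill1 κ φ) cap = PP SS φ cap - DD SS φ cap κ - RR SS φ cap κ := by
  unfold PP DD
  rw [h9_RR, mass_kill1, empty_union]
  have h : ∀ S ∈ SS, mass (kill1 κ φ) S ^ 2 / cap S =
      mass φ S ^ 2 / cap S -
      ((if κ ⊆ S then 1 else 2) * rat φ cap S * mass φ (S ∪ κ)) +
      (if κ ⊆ S then 0 else mass φ (S ∪ κ) ^ 2 / cap S) := by
    intro S _
    have hc := (hcap S).ne'
    rw [mass_kill1]
    unfold rat
    by_cases hκ : κ ⊆ S
    · rw [if_pos hκ, if_pos hκ, union_eq_left.2 hκ]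
      field_simp
      ring
    · rw [if_neg hκ, if_neg hκ]
      field_simp
      ring
  rw [Finset.sum_congr rfl h, Finset.sum_add_distrib, Finset.sum_sub_distrib]
  ring

/-- removing structures costs at most their weight -/
theorem PP_remove (SS : Finset (Finset V)) (φ φ' cap : Finset V → ℝ) (hcap : ∀ S, 0 < cap S)
    (h0 : ∀ A, 0 ≤ φ A) (h : ∀ A, φ' A = φ A ∨ φ' A = 0) :
    PP SS φ cap - ∑ A ∈ univ.filter (fun A => φ' A ≠ φ A), φ A ≤ PP SS φ' cap := by
  have h1 : ∀ A, φ' A ≤ φ A := by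
    intro A
    rcases h A with h | h
    · rw [h]
    · rw [h]
      exact h0 A
  have h2 : ∀ A, 0 ≤ φ' A := by
    intro A
    rcases h A with h | h
    · rw [h]
      exact h0 A
    · rw [h]
  have h3 : ∑ S ∈ SS, mass φ' S ^ 2 / cap S ≤ ∑ S ∈ SS, mass φ S ^ 2 / cap S := by
    refine Finset.sum_le_sum fun S _ => ?_
    have h4 : mass φ' S ≤ mass φ S := Finset.sum_le_sum fun A _ => h1 A
    have h5 : 0 ≤ mass φ' S := Finset.sum_nonneg fun A _ => h2 A
    exact div_le_div_of_nonneg_right (pow_le_pow_left₀ h5 h4 2) (hcap S).le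
  have h6 : mass φ ∅ - ∑ A ∈ univ.filter (fun A => φ' A ≠ φ A), φ A = mass φ' ∅ := by
    unfold mass
    rw [Finset.sum_filter (p := fun A => φ' A ≠ φ A)]
    have e : univ.filter (fun A : Finset V => (∅ : Finset V) ⊆ A) = univ := by
      ext A
      simp
    rw [e, ← Finset.sum_sub_distrib]
    refine Finset.sum_congr rfl fun A _ => ?_
    rcases h A with h | h
    · rw [if_neg (not_not.2 h), h, sub_zero]
    · by_cases hA : φ A = 0
      · rw [h, hA]
        simp
      · rw [if_pos (by rw [h]; exact fun e => hA e.symm), h, sub_self]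
  unfold PP
  linarith

end abstract

end Pool.Agent.Helper75.CG
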